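import Pool.Agent.Cyl.Main2

/-!
Immersed surfaces of constant mean curvature in a closed cylinder over a convex plane domain `D`
are graphs, unless `2 H |D| = |C|` and the surface is orthogonal to the plane along `C = ∂D`.
-/

open MeasureTheory Set Metric Cyl

universe u

namespace Pool.Agent.Results.MP_efa610_gt.ClosedCylinder

theorem result {M : Type u} [TopologicalSpace M] [CompactSpace M] [T2Space M] [ConnectedSpace M]
    {D : Set ℂ} {γ : ℝ → ℂ} {L : ℝ} (hC : ConvexCurve D γ L) {H : ℝ} (hH : 0 < H)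
    {f N : M → E3} {bd : Set M} (hf : CMC f N bd H) (hinj : InjOn f bd)
    (himg : f '' bd = frontier D ×ˢ {0}) (hcyl : ∀ q, (f q).1 ∈ closure D) :
    IsGraph f D ∨ (2 * H * volume.real D = L ∧ (∀ q ∈ bd, (N q).2 = 0) ∧
      ∀ θ, ip (deriv (deriv γ) θ) (Complex.I * deriv γ θ) ≤ 2 * H) :=
  main2 (Setup.mk D γ L H f N bd hC hH hf hinj himg hcyl)

end Pool.Agent.Results.MP_efa610_gt.ClosedCylinder
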